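import Pool.Agent.H38.AT.Targets
import Pool.Agent.H82.TG.CovJ

/-!
# Two large primes with exponents at least `2` (MP_7ecdd4_nt, row CVJ)
-/

set_option autoImplicit false

namespace Pool.Agent.H72.AT

open Finset
open Pool.Agent.H38.PS (pd)
open Pool.Agent.H38.AE (RR rad NT NJ)
open Pool.Agent.H38.AT

theorem RR_pos (m : ℤ) : 0 < RR m := by
  have h1 : 0 < rad m.natAbs :=
    Finset.prod_pos fun q hq => (Nat.prime_of_mem_primeFactors hq).pos
  show (0 : ℝ) < ((rad m.natAbs : ℕ) : ℝ)
  exact_mod_cast h1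

theorem pf_CVJ : T_CVJ := by
  intro n H K x i j X W c z p r hx hij hX hW hp hr hp2 hpK hr2 hrK hpw hrw hz
  have hX0 : 0 < X := by linarith
  have hl : 0 < Real.log X := Real.log_pos hX
  obtain ⟨m, hm1, hm2, hm3⟩ := Pool.Agent.H82.TG.split_pow (hx.1 i) hp
  obtain ⟨m', hm1', hm2', hm3'⟩ := Pool.Agent.H82.TG.split_pow (hx.1 j) hr
  have hpp := Nat.prime_of_mem_primeFactors hp
  have hrp := Nat.prime_of_mem_primeFactors hr
  refine ⟨hx, i, j, m, m', p, r, (x i).natAbs.factorization p, (x j).natAbs.factorization r,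
    hij, hpp.pos, hrp.pos, hp2, hpK, hr2, hrK, hm1, hm1', ?_⟩
  have hp0 : (0 : ℝ) < p := by exact_mod_cast hpp.pos
  have hr0 : (0 : ℝ) < r := by exact_mod_cast hrp.pos
  have hi : Real.log (pd (x i).natAbs.primeFactors) ≤ W * Real.log X := hW i
  have hj : Real.log (pd (x j).natAbs.primeFactors) ≤ W * Real.log X := hW j
  have hm0 : 0 < RR m := RR_pos m
  have hm0' : 0 < RR m' := RR_pos m'
  have hlm : 0 ≤ Real.log (RR m) := Real.log_nonneg hm3
  have hlm' : 0 ≤ Real.log (RR m') := Real.log_nonneg hm3'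
  set P : ℝ := ∏ l ∈ Finset.univ.filter (fun l => l ≠ i ∧ l ≠ j), RR (x l) with hP
  have hP0 : 0 < P := Finset.prod_pos fun l _ => RR_pos _
  have hcard : ((Finset.univ.filter (fun l : Fin n => l ≠ i ∧ l ≠ j)).card : ℝ) = n - 2 := by
    have h1 : (Finset.univ.filter (fun l : Fin n => l ≠ i ∧ l ≠ j)) =
        Finset.univ \ {i, j} := by
      ext l
      simp
    have h2 : ({i, j} : Finset (Fin n)).card = 2 := Finset.card_pair hij
    have h3 : (Finset.univ \ {i, j} : Finset (Fin n)).card + ({i, j} : Finset (Fin n)).card =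
        Fintype.card (Fin n) := by
      rw [Finset.card_sdiff_add_card_eq_card (Finset.subset_univ _), Finset.card_univ]
    rw [h1]
    rw [h2, Fintype.card_fin] at h3
    have h4 : (((Finset.univ \ {i, j} : Finset (Fin n)).card + 2 : ℕ) : ℝ) = n := by
      exact_mod_cast h3
    push_cast at h4
    linarith
  have hlP : Real.log P ≤ (n - 2) * (W * Real.log X) := by
    rw [hP, Real.log_prod fun l _ => (RR_pos (x l)).ne']
    calc ∑ l ∈ Finset.univ.filter (fun l => l ≠ i ∧ l ≠ j), Real.log (RR (x l))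
        ≤ ∑ l ∈ Finset.univ.filter (fun l : Fin n => l ≠ i ∧ l ≠ j), W * Real.log X :=
          Finset.sum_le_sum fun l _ => hW l
      _ = (n - 2) * (W * Real.log X) := by
          rw [Finset.sum_const, nsmul_eq_mul, hcard]
  have hpos : 0 < RR m * RR m' * P * ((p : ℝ) * r) ^ (1 / 3 : ℝ) := by positivity
  rw [← Real.log_le_log_iff hpos (by positivity), Real.log_rpow hX0,
    Real.log_mul (by positivity) (by positivity), Real.log_mul (by positivity) hP0.ne',
    Real.log_mul hm0.ne' hm0'.ne', Real.log_rpow (by positivity),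
    Real.log_mul hp0.ne' hr0.ne']
  have h1 : (2 * c + (n - 2) * W + 2 / 3 * W) * Real.log X ≤ z * Real.log X :=
    mul_le_mul_of_nonneg_right hz hl.le
  linarith

end Pool.Agent.H72.AT
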