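import Pool.Agent.H38.AT.Targets
import Pool.Agent.H33.AE.N5

/-!
# The tuples of polynomial height (MP_7ecdd4_nt, row POL)
-/

set_option autoImplicit false

namespace Pool.Agent.H72.AT.POL

open Finset
open Pool.Agent.H38.AE.Statement (Admissible)
open Pool.Agent.H38.PS (pd)
open Pool.Agent.H38.AE (RR rad NT NJ)
open Pool.Agent.H38.AT

theorem RR_ge (m : ℤ) : 1 ≤ RR m := by
  have h1 : 0 < rad m.natAbs :=
    Finset.prod_pos fun q hq => (Nat.prime_of_mem_primeFactors hq).pos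
  show (1 : ℝ) ≤ ((rad m.natAbs : ℕ) : ℝ)
  exact_mod_cast h1

theorem pd_eq {n : ℕ} {x : Fin n → ℤ} (hx : Admissible x) :
    (pd (prn x).primeFactors : ℝ) = ∏ i, RR (x i) := by
  have h := Pool.Agent.H33.AE.rad_prod x hx.2.1 Finset.univ
  have h2 : pd (prn x).primeFactors = ∏ i, rad (x i).natAbs := h
  rw [h2]
  unfold RR
  push_cast
  rfl

theorem le_htn {n : ℕ} (x : Fin n → ℤ) (i : Fin n) : (x i).natAbs ≤ htn x :=
  Finset.le_sup (f := fun i => (x i).natAbs) (Finset.mem_univ i)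

theorem mem_adm {n : ℕ} {x : Fin n → ℤ} (hx : Admissible x) {H : ℕ} (h : htn x ≤ H) :
    x ∈ Pool.Agent.H38.AE.Adm n H := by
  refine ⟨hx.1, hx.2.1, hx.2.2, fun i => ?_⟩
  have h1 := (le_htn x i).trans h
  rw [Int.abs_eq_natAbs]
  exact_mod_cast h1

theorem htn_pos {n : ℕ} (hn : 0 < n) {x : Fin n → ℤ} (hx : Admissible x) : 1 ≤ htn x := by
  have h1 := le_htn x ⟨0, hn⟩
  have h2 : 1 ≤ (x ⟨0, hn⟩).natAbs := Int.natAbs_pos.2 (hx.1 _)
  omega

/-- the product of the `n - 1` smallest radicals -/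
theorem mem_NT {n : ℕ} (hn : 0 < n) {x : Fin n → ℤ} (hx : Admissible x) {H : ℕ} (h : htn x ≤ H)
    {Z : ℝ} (hZ : (∏ i, RR (x i)) ^ (1 - 1 / (n : ℝ)) ≤ Z) : x ∈ NT n H Z := by
  haveI : Nonempty (Fin n) := ⟨⟨0, hn⟩⟩
  have hn0 : (0 : ℝ) < n := by exact_mod_cast hn
  obtain ⟨k, -, hk⟩ := Finset.exists_max_image (Finset.univ : Finset (Fin n))
    (fun i => RR (x i)) Finset.univ_nonempty
  refine ⟨mem_adm hx h, k, le_trans ?_ hZ⟩
  set R : ℝ := ∏ i, RR (x i) with hR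
  have hpos : ∀ i, 0 < RR (x i) := fun i => lt_of_lt_of_le one_pos (RR_ge _)
  have hR0 : 0 < R := Finset.prod_pos fun i _ => hpos i
  have h1 : R = RR (x k) * ∏ l ∈ Finset.univ.filter (fun l => l ≠ k), RR (x l) := by
    rw [hR, ← Finset.mul_prod_erase _ _ (Finset.mem_univ k), Finset.filter_ne']
  have h2 : R ≤ RR (x k) ^ n := by
    rw [hR]
    calc ∏ i, RR (x i) ≤ ∏ _i : Fin n, RR (x k) :=
          Finset.prod_le_prod (fun i _ => (hpos i).le) fun i hi => hk i hi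
      _ = RR (x k) ^ n := by simp
  have h3 : R ^ (1 / (n : ℝ)) ≤ RR (x k) := by
    calc R ^ (1 / (n : ℝ)) ≤ (RR (x k) ^ n) ^ (1 / (n : ℝ)) :=
          Real.rpow_le_rpow hR0.le h2 (by positivity)
      _ = RR (x k) := by
          rw [one_div]
          exact Real.pow_rpow_inv_natCast (hpos k).le hn.ne'
  have h4 : 0 < ∏ l ∈ Finset.univ.filter (fun l => l ≠ k), RR (x l) :=
    Finset.prod_pos fun i _ => hpos i
  have h5 : R ^ (1 / (n : ℝ)) * ∏ l ∈ Finset.univ.filter (fun l => l ≠ k), RR (x l) ≤ R := by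
    rw [h1]
    nth_rewrite 1 [← h1]
    exact mul_le_mul_of_nonneg_right h3 h4.le
  have h6 : R ^ (1 / (n : ℝ)) * R ^ (1 - 1 / (n : ℝ)) = R := by
    rw [← Real.rpow_add hR0]
    rw [show 1 / (n : ℝ) + (1 - 1 / (n : ℝ)) = 1 by ring, Real.rpow_one]
  have h7 : 0 < R ^ (1 / (n : ℝ)) := by positivity
  exact le_of_mul_le_mul_left (h5.trans h6.ge) h7

theorem pf_POL (hNWC : T_NWC) (hCOV : T_COV) (hN1 : Pool.Agent.H38.AE.T_N1)
    (hN3 : Pool.Agent.H38.AE.T_N3) (hHA : Pool.Agent.H38.AE.T_HA) : T_POL := by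
  intro n ε A hn hε hA
  have hn0 : 0 < n := by omega
  have hn0' : (3 : ℝ) ≤ n := by exact_mod_cast hn
  have hnR : (0 : ℝ) < n := by linarith
  have hn1 : 1 / (n : ℝ) ≤ 1 / 3 := one_div_le_one_div_of_le (by norm_num) hn0'
  have hn2 : 0 < 1 / (n : ℝ) := by positivity
  obtain ⟨c₀, X₀, K, hc₀, hX₀, hcov⟩ := hCOV n (ε / 2) A hn (by linarith) hA
  set θ : ℝ := 1 - 1 / (n : ℝ) with hθ
  have hθ0 : 0 < θ := by rw [hθ]; linarith
  have hθ1 : θ ≤ 1 := by rw [hθ]; linarith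
  set η : ℝ := ε / (2 * (1 + ε)) with hη
  have hη0 : 0 < η := by positivity
  have hη1 : η ≤ 1 / 2 := by
    rw [hη, div_le_iff₀ (by positivity)]
    linarith
  have hη2 : η * (1 / (n : ℝ) + ε) ≤ ε / 2 := by
    have h1 : η * (1 + ε) = ε / 2 := by
      rw [hη]
      field_simp
    have h2 : η * (1 / (n : ℝ) + ε) ≤ η * (1 + ε) :=
      mul_le_mul_of_nonneg_left (by linarith) hη0.le
    linarith
  set c₁ : ℝ := min c₀ (η * θ) with hc₁
  have hc₁0 : 0 < c₁ := lt_min hc₀ (by positivity)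
  have hc₁a : c₁ ≤ c₀ := min_le_left _ _
  have hc₁b : c₁ ≤ η * θ := min_le_right _ _
  have hc₁c : c₁ ≤ θ := by nlinarith
  set e : ℝ := min 1 (c₁ / (2 * A)) with he
  have he0 : 0 < e := lt_min one_pos (by positivity)
  have he1 : e ≤ 1 := min_le_left _ _
  have he2 : A * e ≤ c₁ / 2 := by
    calc A * e ≤ A * (c₁ / (2 * A)) := mul_le_mul_of_nonneg_left (min_le_right _ _) (by linarith)
      _ = c₁ / 2 := by field_simp
  have hHD : Pool.Agent.H38.AE.T_HD 1 (1 / 3) := by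
    have h := hHA 1 le_rfl
    have h2 : (4 : ℝ) / (3 * (((1 : ℕ) : ℝ) + 3)) = 1 / 3 := by push_cast; norm_num
    rwa [h2] at h
  obtain ⟨C1, hC1, h1⟩ := hN1 n e he0
  obtain ⟨C2, hC2, h2⟩ := hNWC n e he0
  obtain ⟨C3, hC3, h3⟩ := hN3 n 1 K (1 / 3) e (by norm_num) he0 hHD
  set S : ℝ → Set (Fin n → ℤ) := fun X => {x : Fin n → ℤ | Admissible x ∧
    (pd (prn x).primeFactors : ℝ) ≤ X ∧
    (pd (prn x).primeFactors : ℝ) ^ (1 / (n : ℝ) + ε) < (htn x : ℝ) ∧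
    Real.log (htn x) ≤ A * Real.log X} with hS
  have hht : ∀ (X : ℝ) (x : Fin n → ℤ), 1 ≤ X → x ∈ S X → (htn x : ℝ) ≤ X ^ A := by
    intro X x hX hx
    have hp : (0 : ℝ) < htn x := by exact_mod_cast htn_pos hn0 hx.1
    rw [← Real.log_le_log_iff hp (by positivity), Real.log_rpow (by linarith)]
    exact hx.2.2.2
  have hsub0 : ∀ (X Y : ℝ) (x : Fin n → ℤ), 1 ≤ X → X ≤ Y → x ∈ S X → htn x ≤ ⌈Y ^ A⌉₊ := by
    intro X Y x hX hXY hx
    have h5 := hht X x hX hx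
    have h6 : X ^ A ≤ Y ^ A := Real.rpow_le_rpow (by linarith) hXY (by linarith)
    exact_mod_cast (h5.trans h6).trans (Nat.le_ceil _)
  have hfin : ∀ X : ℝ, 1 ≤ X → (S X).Finite := fun X hX =>
    (Pool.Agent.H33.AE.adm_finite n ⌈X ^ A⌉₊).subset fun x hx =>
      mem_adm hx.1 (hsub0 X X x hX le_rfl hx)
  -- the constant for small `X`
  set N₀ : ℝ := ((Pool.Agent.H38.AE.Adm n ⌈X₀ ^ A⌉₊).ncard : ℝ) with hN₀
  refine ⟨c₁ / 2, 8 * (2 * C1 + C2 + C3) + N₀, by positivity, by positivity, fun X hX => ?_⟩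
  refine ⟨hfin X hX, ?_⟩
  show ((S X).ncard : ℝ) ≤ (8 * (2 * C1 + C2 + C3) + N₀) * X ^ (θ - c₁ / 2)
  have hX0 : 0 < X := by linarith
  have hXp : 1 ≤ X ^ (θ - c₁ / 2) := Real.one_le_rpow hX (by linarith)
  have hN00 : 0 ≤ N₀ := Nat.cast_nonneg _
  rcases lt_or_ge X X₀ with hlt | hge
  · have h5 : (S X).ncard ≤ (Pool.Agent.H38.AE.Adm n ⌈X₀ ^ A⌉₊).ncard :=
      Set.ncard_le_ncard (fun x hx => mem_adm hx.1 (hsub0 X X₀ x hX hlt.le hx))
        (Pool.Agent.H33.AE.adm_finite n _)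
    have h6 : ((S X).ncard : ℝ) ≤ N₀ := by
      rw [hN₀]
      exact_mod_cast h5
    calc ((S X).ncard : ℝ) ≤ N₀ * 1 := by linarith
      _ ≤ (8 * (2 * C1 + C2 + C3) + N₀) * X ^ (θ - c₁ / 2) := by
        gcongr
        have : 0 ≤ 8 * (2 * C1 + C2 + C3) := by positivity
        linarith
  · set H : ℕ := ⌈X ^ A⌉₊ with hH
    have hXA : 1 ≤ X ^ A := Real.one_le_rpow hX (by linarith)
    have hH1 : 1 ≤ H := by
      have : (1 : ℝ) ≤ (H : ℝ) := hXA.trans (Nat.le_ceil _)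
      exact_mod_cast this
    have hH2 : (H : ℝ) ≤ 2 * X ^ A := by
      have := (Nat.ceil_lt_add_one (show 0 ≤ X ^ A by positivity)).le
      linarith
    have hHe : (H : ℝ) ^ e ≤ 2 * X ^ (c₁ / 2) := by
      calc (H : ℝ) ^ e ≤ (2 * X ^ A) ^ e := Real.rpow_le_rpow (Nat.cast_nonneg _) hH2 he0.le
        _ = 2 ^ e * X ^ (A * e) := by
          rw [Real.mul_rpow (by norm_num) (by positivity), ← Real.rpow_mul hX0.le]
        _ ≤ 2 ^ (1 : ℝ) * X ^ (c₁ / 2) := by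
          have ha : (2 : ℝ) ^ e ≤ 2 ^ (1 : ℝ) := Real.rpow_le_rpow_of_exponent_le (by norm_num) he1
          have hb : X ^ (A * e) ≤ X ^ (c₁ / 2) := Real.rpow_le_rpow_of_exponent_le hX he2
          exact mul_le_mul ha hb (by positivity) (by positivity)
        _ = 2 * X ^ (c₁ / 2) := by rw [Real.rpow_one]
    set Z : ℝ := 4 * X ^ (θ - c₁) with hZ
    have hZ0 : 0 ≤ Z := by positivity
    have hZa : X ^ ((1 - η) * θ) ≤ Z := by
      have h5 : X ^ ((1 - η) * θ) ≤ X ^ (θ - c₁) :=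
        Real.rpow_le_rpow_of_exponent_le hX (by nlinarith)
      have h6 : 0 ≤ X ^ (θ - c₁) := by positivity
      rw [hZ]
      linarith
    set Z' : ℝ := 4 * X ^ (θ - c₀) with hZ'
    have hZ'0 : 0 ≤ Z' := by positivity
    have hZb : Z' ≤ Z := by
      rw [hZ, hZ']
      have h5 : X ^ (θ - c₀) ≤ X ^ (θ - c₁) :=
        Real.rpow_le_rpow_of_exponent_le hX (by linarith)
      linarith
    have hsub : S X ⊆ NT n H Z ∪ (NT n H Z' ∪ NW n H Z' ∪ NJ n H Z' (1 / 3) 1 K) := by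
      intro x hx
      have hh : htn x ≤ H := hsub0 X X x hX le_rfl hx
      have hRe := pd_eq hx.1
      have hR1 : 1 ≤ ∏ i, RR (x i) := by
        have : ∏ _i : Fin n, (1 : ℝ) ≤ ∏ i, RR (x i) :=
          Finset.prod_le_prod (fun _ _ => zero_le_one) fun i _ => RR_ge _
        simpa using this
      rcases le_or_gt (∏ i, RR (x i)) (X ^ (1 - η)) with hc | hc
      · left
        refine mem_NT hn0 hx.1 hh (le_trans ?_ hZa)
        calc (∏ i, RR (x i)) ^ (1 - 1 / (n : ℝ)) ≤ (X ^ (1 - η)) ^ θ :=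
              Real.rpow_le_rpow (by linarith) hc hθ0.le
          _ = X ^ ((1 - η) * θ) := by rw [← Real.rpow_mul hX0.le]
      · right
        refine hcov X H x hge (mem_adm hx.1 hh) hx.2.1 ?_ hx.2.2.2
        have h5 : X ^ (1 / (n : ℝ) + ε / 2) ≤ (X ^ (1 - η)) ^ (1 / (n : ℝ) + ε) := by
          rw [← Real.rpow_mul hX0.le]
          exact Real.rpow_le_rpow_of_exponent_le hX (by nlinarith)
        have h6 : (X ^ (1 - η)) ^ (1 / (n : ℝ) + ε) ≤
            (∏ i, RR (x i)) ^ (1 / (n : ℝ) + ε) :=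
          Real.rpow_le_rpow (by positivity) hc.le (by positivity)
        have h7 := hx.2.2.1
        rw [hRe] at h7
        exact h5.trans (h6.trans h7.le)
    have hfinU : (NT n H Z ∪ (NT n H Z' ∪ NW n H Z' ∪ NJ n H Z' (1 / 3) 1 K)).Finite := by
      apply (Pool.Agent.H33.AE.adm_finite n H).subset
      rintro t (h | ((h | h) | h)) <;> exact h.1
    have hu : (S X).ncard ≤ (NT n H Z).ncard +
        ((NT n H Z').ncard + (NW n H Z').ncard + (NJ n H Z' (1 / 3) 1 K).ncard) :=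
      (Set.ncard_le_ncard hsub hfinU).trans ((Set.ncard_union_le _ _).trans
        (Nat.add_le_add_left ((Set.ncard_union_le _ _).trans
          (Nat.add_le_add_right (Set.ncard_union_le _ _) _)) _))
    have hu' : ((S X).ncard : ℝ) ≤ (NT n H Z).ncard +
        ((NT n H Z').ncard + (NW n H Z').ncard + (NJ n H Z' (1 / 3) 1 K).ncard) := by
      exact_mod_cast hu
    have ha := h1 H Z hH1 hZ0
    have hb := h1 H Z' hH1 hZ'0
    have hc := h2 H Z' hH1 hZ'0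
    have hd := h3 H Z' hH1 hZ'0
    have hHp : 0 ≤ (H : ℝ) ^ e := by positivity
    have hb' : C1 * (H : ℝ) ^ e * Z' ≤ C1 * (H : ℝ) ^ e * Z := by gcongr
    have hc' : C2 * (H : ℝ) ^ e * Z' ≤ C2 * (H : ℝ) ^ e * Z := by gcongr
    have hd' : C3 * (H : ℝ) ^ e * Z' ≤ C3 * (H : ℝ) ^ e * Z := by gcongr
    have hpow : X ^ (c₁ / 2) * X ^ (θ - c₁) = X ^ (θ - c₁ / 2) := by
      rw [← Real.rpow_add hX0]
      congr 1
      ring
    calc ((S X).ncard : ℝ) ≤ (2 * C1 + C2 + C3) * (H : ℝ) ^ e * Z := by linarith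
      _ ≤ (2 * C1 + C2 + C3) * (2 * X ^ (c₁ / 2)) * Z := by gcongr
      _ = 8 * (2 * C1 + C2 + C3) * (X ^ (c₁ / 2) * X ^ (θ - c₁)) := by rw [hZ]; ring
      _ = 8 * (2 * C1 + C2 + C3) * X ^ (θ - c₁ / 2) := by rw [hpow]
      _ ≤ (8 * (2 * C1 + C2 + C3) + N₀) * X ^ (θ - c₁ / 2) := by
        gcongr
        linarith

end Pool.Agent.H72.AT.POL

namespace Pool.Agent.H72.AT

/-- POL -/
theorem pf_POL (hNWC : Pool.Agent.H38.AT.T_NWC) (hCOV : Pool.Agent.H38.AT.T_COV)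
    (hN1 : Pool.Agent.H38.AE.T_N1) (hN3 : Pool.Agent.H38.AE.T_N3)
    (hHA : Pool.Agent.H38.AE.T_HA) : Pool.Agent.H38.AT.T_POL :=
  POL.pf_POL hNWC hCOV hN1 hN3 hHA

end Pool.Agent.H72.AT
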