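import Pool.Agent.H67.AT.Targets
import Pool.Agent.H67.AT.Ser

/-!
# Row EVT: the event of probability at least `1 / 2`

The refinements which are not accepted have mass at most `1 / 4`; by Markov's inequality the
refinements for which one of the loads exceeds its bound have mass at most `1 / 8`.
-/

set_option autoImplicit false

open Finset PowerSeries Pool.Agent.H67.AT

namespace Pool.Agent.H72.AT

theorem pf_EVT : T_EVT := by
  intro R ι _ _ μ acc O S f m ζ hμ hone hfail hf hm hζ hSO hS hsum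
  classical
  set c : ι → ℝ := fun o => ∑ r, μ r * f r o with hc
  have hc0 : ∀ o ∈ O, 0 ≤ c o := fun o ho =>
    Finset.sum_nonneg fun r _ => mul_nonneg (hμ r) (hf r o ho)
  have hmp : (0 : ℝ) < m := by exact_mod_cast hm
  have hB : ∀ o ∈ O, 0 < 16 * m * c o + 16 * ζ := fun o ho => by
    have := hc0 o ho
    positivity
  -- the Markov sum
  have hM : ∑ o ∈ O, c o / (16 * m * c o + 16 * ζ) ≤ 1 / 8 := by
    rw [← Finset.sum_sdiff hSO]
    have h1 : ∑ o ∈ O \ S, c o / (16 * m * c o + 16 * ζ) ≤ 1 / 16 := by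
      have h2 : ∀ o ∈ O \ S, c o / (16 * m * c o + 16 * ζ) ≤ c o / (16 * ζ) := fun o ho => by
        have ho' := (Finset.mem_sdiff.1 ho).1
        have h3 := hc0 o ho'
        apply div_le_div_of_nonneg_left h3 (by positivity)
        have : 0 ≤ 16 * (m : ℝ) * c o := by positivity
        linarith
      refine (Finset.sum_le_sum h2).trans ?_
      rw [← Finset.sum_div, div_le_iff₀ (by positivity)]
      have : ∑ o ∈ O \ S, c o ≤ ζ := hsum
      linarith
    have h1' : ∑ o ∈ S, c o / (16 * m * c o + 16 * ζ) ≤ 1 / 16 := by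
      have h2 : ∀ o ∈ S, c o / (16 * m * c o + 16 * ζ) ≤ 1 / (16 * m) := fun o ho => by
        have h3 := hc0 o (hSO ho)
        rw [div_le_div_iff₀ (hB o (hSO ho)) (by positivity)]
        nlinarith
      refine (Finset.sum_le_sum h2).trans ?_
      rw [Finset.sum_const, nsmul_eq_mul, mul_one_div, div_le_iff₀ (by positivity)]
      have : (S.card : ℝ) ≤ m := by exact_mod_cast hS.le
      linarith
    linarith
  -- the mass of the complement
  have hcomp : ∑ r ∈ univ.filter fun r => ¬ (acc r ∧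
      ∀ o ∈ O, f r o ≤ 16 * m * ∑ r', μ r' * f r' o + 16 * ζ), μ r ≤ 3 / 8 := by
    have h1 : ∑ r ∈ univ.filter fun r => ¬ (acc r ∧
        ∀ o ∈ O, f r o ≤ 16 * m * ∑ r', μ r' * f r' o + 16 * ζ), μ r ≤
        ∑ r, ((if acc r then 0 else μ r) +
          ∑ o ∈ O, μ r * f r o / (16 * m * c o + 16 * ζ)) := by
      rw [Finset.sum_filter]
      refine Finset.sum_le_sum fun r _ => ?_
      have hn : ∀ o ∈ O, 0 ≤ μ r * f r o / (16 * m * c o + 16 * ζ) := fun o ho =>
        div_nonneg (mul_nonneg (hμ r) (hf r o ho)) (hB o ho).le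
      have hs : 0 ≤ ∑ o ∈ O, μ r * f r o / (16 * m * c o + 16 * ζ) := Finset.sum_nonneg hn
      have hi : 0 ≤ if acc r then 0 else μ r := by split_ifs; exacts [le_rfl, hμ r]
      by_cases ha : acc r
      · by_cases hb : ∀ o ∈ O, f r o ≤ 16 * m * ∑ r', μ r' * f r' o + 16 * ζ
        · rw [if_neg (not_not.2 ⟨ha, hb⟩)]; exact add_nonneg hi hs
        · rw [if_pos (fun h => hb h.2), if_pos ha, zero_add]
          push Not at hb
          obtain ⟨o, ho, hlt⟩ := hb
          refine le_trans ?_ (Finset.single_le_sum hn ho)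
          rw [le_div_iff₀ (hB o ho)]
          exact mul_le_mul_of_nonneg_left hlt.le (hμ r)
      · rw [if_pos (fun h => ha h.1), if_neg ha]
        linarith
    refine h1.trans ?_
    rw [Finset.sum_add_distrib, Finset.sum_comm]
    have h2 : ∑ o ∈ O, ∑ r, μ r * f r o / (16 * m * c o + 16 * ζ) ≤ 1 / 8 := by
      have : ∀ o ∈ O, ∑ r, μ r * f r o / (16 * m * c o + 16 * ζ) =
          c o / (16 * m * c o + 16 * ζ) := fun o _ => by rw [← Finset.sum_div]
      rw [Finset.sum_congr rfl this]
      exact hM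
    linarith
  have htot := Finset.sum_filter_add_sum_filter_not univ
    (fun r => acc r ∧ ∀ o ∈ O, f r o ≤ 16 * m * ∑ r', μ r' * f r' o + 16 * ζ) μ
  rw [hone] at htot
  have h5 : (1 : ℝ) / 2 ≤ ∑ r ∈ univ.filter (fun r => acc r ∧
      ∀ o ∈ O, f r o ≤ 16 * m * ∑ r', μ r' * f r' o + 16 * ζ), μ r := by
    linarith
  convert h5

end Pool.Agent.H72.AT
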