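import Pool.Agent.H67.AT.Targets
import Pool.Agent.H67.AT.Ser

/-!
# Row FST: bound of the first components

Doubling the nonconstant coefficients is dominated by the substitution `z ↦ 2 z`, and this
substitution turns the powers of `P + c z W` into the powers of `P + 2 c z W`.
-/

set_option autoImplicit false
set_option linter.unusedSectionVars false

open Finset PowerSeries Pool.Agent.H67.AT

namespace Pool.Agent.H72.AT

/-- doubling is dominated by the substitution `z ↦ 2 z` -/
theorem dblp_le_rescale {F : PS} (h : PNn F) : PLe (dblp F) (rescale (2 : ℝ) F) := fun n => by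
  rw [coeff_dblp, coeff_rescale]
  split_ifs with hn
  · subst hn; simp
  · obtain ⟨n', rfl⟩ := Nat.exists_eq_succ_of_ne_zero hn
    have h1 : (1 : ℝ) ≤ 2 ^ n' := one_le_pow₀ (by norm_num)
    have h2 := h n'.succ
    rw [Nat.succ_eq_add_one, pow_succ]
    rw [Nat.succ_eq_add_one] at h2
    nlinarith

section mat

variable {X : Type} [Fintype X] [DecidableEq X]

theorem coeff_linm (P W : Matrix X X ℝ) (x z : X) (n : ℕ) :
    coeff n (linm P W x z) = if n = 0 then P x z else if n = 1 then W x z else 0 := by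
  rcases n with _ | _ | n <;> simp [linm, coeff_C, coeff_succ_mul_X]

theorem linm_rescale (P W : Matrix X X ℝ) :
    (rescale (2 : ℝ)).mapMatrix (linm P W) = linm P ((2 : ℝ) • W) := by
  ext x z n
  rw [RingHom.mapMatrix_apply, Matrix.map_apply, coeff_rescale, coeff_linm, coeff_linm]
  rcases n with _ | _ | n <;> simp

theorem linm_rescale_pow (P W : Matrix X X ℝ) (N : ℕ) (x z : X) :
    (linm P ((2 : ℝ) • W) ^ N) x z = rescale (2 : ℝ) ((linm P W ^ N) x z) := by
  rw [← linm_rescale, ← map_pow, RingHom.mapMatrix_apply, Matrix.map_apply]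

theorem linm_mono {P W W' : Matrix X X ℝ} (h : ∀ x z, W x z ≤ W' x z) :
    MLe (linm P W) (linm P W') := fun x z n => by
  rw [coeff_linm, coeff_linm]
  split_ifs
  · exact le_rfl
  · exact h x z
  · exact le_rfl

end mat

section net

variable {X E Y : Type} [Fintype X] [DecidableEq X] [Fintype E] [DecidableEq E] [Fintype Y]
  [DecidableEq Y] (G : Net X E Y)

theorem P_nn (x z : X) : 0 ≤ G.P x z := by
  unfold Net.P
  rw [Matrix.of_apply]
  exact Finset.sum_nonneg fun e _ => by split_ifs; exacts [G.nonneg e, le_rfl]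

theorem Mm_nn (y : Y) (x z : X) : 0 ≤ Mm G y x z := by
  unfold Mm
  rw [Matrix.of_apply]
  exact Finset.sum_nonneg fun e _ => by split_ifs; exacts [G.nonneg e, le_rfl]

theorem wo_nn {v : Y → ℝ} (hv : ∀ y, 0 ≤ v y) (o : Option Y) : 0 ≤ wo v o := by
  cases o with
  | none => exact le_rfl
  | some y => exact hv y

theorem W_apply (v : Y → ℝ) (x z : X) : (∑ y, v y • Mm G y) x z =
    ∑ e, if G.src e = x ∧ G.tgt e = z then G.wt e * wo v (G.lt e) else 0 := by
  rw [Matrix.sum_apply]
  simp only [Matrix.smul_apply, Mm, Matrix.of_apply, smul_eq_mul, Finset.mul_sum]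
  rw [Finset.sum_comm]
  refine Finset.sum_congr rfl fun e _ => ?_
  by_cases h : G.src e = x ∧ G.tgt e = z
  · rw [if_pos h]
    cases hl : G.lt e with
    | none =>
      simp [wo]
    | some y₀ =>
      rw [Finset.sum_eq_single y₀]
      · rw [if_pos ⟨h.1, h.2, rfl⟩]; simp only [wo]; ring
      · intro y _ hy
        rw [if_neg, mul_zero]
        rintro ⟨_, _, h3⟩
        exact hy (Option.some.inj h3).symm
      · intro hy; exact absurd (Finset.mem_univ _) hy
  · rw [if_neg h]
    refine Finset.sum_eq_zero fun y _ => ?_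
    rw [if_neg, mul_zero]
    rintro ⟨h1, h2, _⟩
    exact h ⟨h1, h2⟩

theorem W_nn {v : Y → ℝ} (hv : ∀ y, 0 ≤ v y) (x z : X) : 0 ≤ (∑ y, v y • Mm G y) x z := by
  rw [W_apply]
  exact Finset.sum_nonneg fun e _ => by
    split_ifs
    exacts [mul_nonneg (G.nonneg e) (wo_nn hv _), le_rfl]

theorem coeff_edge (v : Y → ℝ) (x z : X) :
    (∑ e, if G.src e = x ∧ G.tgt e = z then G.wt e • (lin (wo v (G.lt e))).fst else 0) =
      linm G.P (∑ y, v y • Mm G y) x z := by
  ext n
  rw [coeff_linm, W_apply, map_sum]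
  have h1 : ∀ e, coeff n (if G.src e = x ∧ G.tgt e = z then G.wt e • (lin (wo v (G.lt e))).fst
      else 0) = if G.src e = x ∧ G.tgt e = z then
        G.wt e * (if n = 0 then 1 else if n = 1 then wo v (G.lt e) else 0) else 0 := by
    intro e
    by_cases h : G.src e = x ∧ G.tgt e = z
    · rw [if_pos h, if_pos h, map_smul, coeff_lin, smul_eq_mul]
    · rw [if_neg h, if_neg h, map_zero]
  rw [Finset.sum_congr rfl fun e _ => h1 e]
  rcases n with _ | _ | n
  · simp [Net.P]
  · simp
  · simp

end net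

theorem pf_FST (hQRC : T_QRC) : T_FST := by
  intro X E Y _ _ _ _ _ _ G k a mk v hv hmk ha L
  obtain ⟨h0, h1, -, -⟩ := hQRC X E Y G k a mk hmk
  set W : Matrix X X ℝ := ∑ y, v y • Mm G y with hW
  have hWn : ∀ x z, 0 ≤ W x z := fun x z => W_nn G hv x z
  have hT : ∀ c : ℝ, 0 ≤ c → MNn (linm G.P (c • W)) := fun c hc =>
    MNn.linm (P_nn G) fun x z => by
      rw [Matrix.smul_apply]; exact mul_nonneg hc (hWn x z)
  -- the bound at the level `l`
  have key : ∀ l : ℕ, MNn (qF G k a mk l) ∧
      MLe (qF G k a mk l) (linm G.P ((2 : ℝ) ^ (l + 1) • W) ^ k ^ l) := by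
    intro l
    induction l with
    | zero =>
      have hL : MNn (linm G.P W) := MNn.linm (P_nn G) hWn
      have he : ∀ x x', qF G k a mk 0 x x' = dblp (linm G.P W x x') := by
        intro x x'
        rw [h0, ← coeff_edge]
        congr 1
        exact Finset.sum_congr rfl fun e _ => by rw [ha e]
      refine ⟨fun x x' => by rw [he]; exact (hL x x').dblp, fun x x' => ?_⟩
      rw [he, pow_zero, pow_one, zero_add, pow_one, ← pow_one (linm G.P ((2 : ℝ) • W)),
        linm_rescale_pow, pow_one]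
      exact dblp_le_rescale (hL x x')
    | succ l ih =>
      obtain ⟨ihn, ihl⟩ := ih
      have hc : (0 : ℝ) ≤ 2 ^ (l + 1) := by positivity
      have hLn : MNn ((linm G.P ((2 : ℝ) ^ (l + 1) • W) ^ k ^ l) ^ k) := ((hT _ hc).pow _).pow _
      refine ⟨fun x x' => by rw [h1]; exact ((ihn.pow k) x x').dblp, fun x x' => ?_⟩
      rw [h1]
      have h2 : PLe (dblp ((qF G k a mk l ^ k) x x'))
          (dblp (((linm G.P ((2 : ℝ) ^ (l + 1) • W) ^ k ^ l) ^ k) x x')) :=
        PLe.dblp (MLe.pow ihn ihl k x x')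
      refine h2.trans ((dblp_le_rescale (hLn x x')).trans ?_)
      rw [← pow_mul, ← pow_succ, ← linm_rescale_pow, smul_smul, ← pow_succ']
      exact PLe.refl _
  intro l hl
  refine ⟨(key l).1, (key l).2.trans ?_⟩
  refine MLe.pow (hT _ (by positivity)) (linm_mono fun x z => ?_) _
  rw [Matrix.smul_apply, Matrix.smul_apply, smul_eq_mul, smul_eq_mul]
  exact mul_le_mul_of_nonneg_right (pow_le_pow_right₀ (by norm_num) (by omega)) (hWn x z)

end Pool.Agent.H72.AT
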